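import Pool.Agent.helper62.LL.SpecK
import Pool.Agent.helper62.RS.GLC

set_option autoImplicit false

/-!
# Row ll:COR of MP_07c750_an: compact cores of the cells
-/

open scoped MatrixGroups ContDiff Topology UpperHalfPlane
open UpperHalfPlane MeasureTheory Filter Set

namespace Pool.Agent.LL

open Pool.Agent.EN (XG MG mkX mkM fl pr)

theorem COR_cont (Γ : Subgroup SL(2, ℝ)) : Continuous (mkX Γ) := continuous_quotient_mk'

theorem COR_surj (Γ : Subgroup SL(2, ℝ)) : Function.Surjective (mkX Γ) := Quotient.mk_surjective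

theorem COR_mk (Γ : Subgroup SL(2, ℝ)) (γ : Γ) (g : SL(2, ℝ)) : mkX Γ ((γ : SL(2, ℝ)) * g) = mkX Γ g :=
  Quotient.sound ⟨γ, rfl⟩

theorem COR_top (Γ : Subgroup SL(2, ℝ)) (hΓ : QU.SurfaceGroup Γ) :
    CompactSpace (XG Γ) ∧ T2Space (XG Γ) ∧ SecondCountableTopology (XG Γ) := by
  obtain ⟨hLC, hSC, hcpt, -⟩ := RS.GLC
  have hcX := COR_cont Γ
  have hsX := COR_surj Γ
  have := hLC
  have := hSC
  have hcI : Continuous (fun g : SL(2, ℝ) => g • I) := by fun_prop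
  have hPD : ProperlyDiscontinuousSMul Γ SL(2, ℝ) := ⟨by
    intro A B hA hB
    refine (hΓ.discrete ((fun g : SL(2, ℝ) => g • I) '' A ∪ (fun g : SL(2, ℝ) => g • I) '' B)
      ((hA.image hcI).union (hB.image hcI))).subset ?_
    rintro γ ⟨b, ⟨a, ha, rfl⟩, hb⟩
    refine ⟨a • I, Or.inl ⟨a, ha, rfl⟩, Or.inr ⟨γ • a, hb, ?_⟩⟩
    exact mul_smul (γ : SL(2, ℝ)) a I⟩
  refine ⟨⟨?_⟩, ?_, ?_⟩
  · obtain ⟨K, hK, hcov⟩ := hΓ.cocompact
    have h2 : (univ : Set (XG Γ)) = mkX Γ '' {g : SL(2, ℝ) | g • I ∈ K} := by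
      symm
      rw [eq_univ_iff_forall]
      intro x
      obtain ⟨g, rfl⟩ := hsX x
      obtain ⟨γ, hγ⟩ := hcov (g • I)
      refine ⟨(γ : SL(2, ℝ)) * g, ?_, ?_⟩
      · show ((γ : SL(2, ℝ)) * g) • I ∈ K
        rw [mul_smul]
        exact hγ
      · exact COR_mk Γ γ g
    rw [h2]
    exact (hcpt K hK).image hcX
  · exact inferInstanceAs (T2Space (Quotient (MulAction.orbitRel Γ SL(2, ℝ))))
  · exact ContinuousConstSMul.secondCountableTopology (Γ := Γ) (T := SL(2, ℝ))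

theorem COR_nbhd (V : Set SL(2, ℝ)) (hV : V ∈ 𝓝 (1 : SL(2, ℝ))) : ∃ r : ℝ, 0 < r ∧ ∀ h, bx r r h → h ∈ V := by
  have hind := (Matrix.SpecialLinearGroup.isClosedEmbedding_val (n := Fin 2) (R := ℝ)).isInducing
  obtain ⟨U, hU, hUV⟩ := Filter.mem_comap.1 ((Filter.ext_iff.1 (hind.nhds_eq_comap (1 : SL(2, ℝ))) V).1 hV)
  have hU' : (U : Set (Fin 2 → Fin 2 → ℝ)) ∈ @nhds (Fin 2 → Fin 2 → ℝ) inferInstance
      (fun i j => (1 : SL(2, ℝ)).1 i j) := hU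
  obtain ⟨ε, hε, hb⟩ := (Metric.mem_nhds_iff (α := Fin 2 → Fin 2 → ℝ)).1 hU'
  refine ⟨ε / 2, half_pos hε, fun h hh => hUV ?_⟩
  obtain ⟨a1, a2, a3, a4⟩ := hh
  have hmem : (fun i j => h.1 i j : Fin 2 → Fin 2 → ℝ) ∈
      Metric.ball (fun i j => (1 : SL(2, ℝ)).1 i j : Fin 2 → Fin 2 → ℝ) ε := by
    rw [Metric.mem_ball]
    refine (dist_pi_lt_iff hε).2 fun i => ?_
    refine (dist_pi_lt_iff hε).2 fun j => ?_
    rw [Real.dist_eq]
    fin_cases i <;> fin_cases j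
    · have h1 : |h.1 0 0 - 1| < ε := by linarith
      simpa using h1
    · have h1 : |h.1 0 1| < ε := by linarith
      simpa using h1
    · have h1 : |h.1 1 0| < ε := by linarith
      simpa using h1
    · have h1 : |h.1 1 1 - 1| < ε := by linarith
      simpa using h1
  exact hb hmem

theorem COR_pair (Γ : Subgroup SL(2, ℝ)) (hΓ : QU.SurfaceGroup Γ) (A B : Set (XG Γ)) (hA : IsClosed A)
    (hB : IsClosed B) (hAB : Disjoint A B) :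
    ∃ r : ℝ, 0 < r ∧ ∀ x y, x ∈ A → y ∈ B → y ∉ Bx Γ r r x := by
  obtain ⟨-, -, hcpt, -⟩ := RS.GLC
  obtain ⟨K, hK, hcov⟩ := hΓ.cocompact
  have hD := hcpt K hK
  have hc1 : Continuous fun q : SL(2, ℝ) × SL(2, ℝ) => mkX Γ q.1 := (COR_cont Γ).comp continuous_fst
  have hc2 : Continuous fun q : SL(2, ℝ) × SL(2, ℝ) => mkX Γ (q.1 * q.2) :=
    (COR_cont Γ).comp (continuous_fst.mul continuous_snd)
  have hW : IsOpen {q : SL(2, ℝ) × SL(2, ℝ) | ¬ (mkX Γ q.1 ∈ A ∧ mkX Γ (q.1 * q.2) ∈ B)} := by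
    have h1 : IsClosed {q : SL(2, ℝ) × SL(2, ℝ) | mkX Γ q.1 ∈ A ∧ mkX Γ (q.1 * q.2) ∈ B} :=
      (hA.preimage hc1).inter (hB.preimage hc2)
    exact h1.isOpen_compl
  have hsub : {g : SL(2, ℝ) | g • I ∈ K} ×ˢ ({1} : Set SL(2, ℝ)) ⊆
      {q : SL(2, ℝ) × SL(2, ℝ) | ¬ (mkX Γ q.1 ∈ A ∧ mkX Γ (q.1 * q.2) ∈ B)} := by
    rintro ⟨g, h⟩ ⟨-, hh⟩ ⟨h1, h2⟩
    have hh1 : h = 1 := hh
    subst hh1
    simp only [mul_one] at h1 h2
    exact Set.disjoint_left.1 hAB h1 h2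
  obtain ⟨U, V, -, hVo, hU, hV, hUV⟩ := generalized_tube_lemma hD isCompact_singleton hW hsub
  obtain ⟨r, hr, hrV⟩ := COR_nbhd V (hVo.mem_nhds (hV rfl))
  refine ⟨r, hr, fun x y hx hy hxy => ?_⟩
  obtain ⟨g, h, hh, hxg, hyg⟩ := hxy
  obtain ⟨γ, hγ⟩ := hcov (g • I)
  have hg1 : (γ : SL(2, ℝ)) * g ∈ U := by
    apply hU
    show ((γ : SL(2, ℝ)) * g) • I ∈ K
    rw [mul_smul]
    exact hγ
  refine hUV (Set.mk_mem_prod hg1 (hrV h hh)) ⟨?_, ?_⟩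
  · show mkX Γ ((γ : SL(2, ℝ)) * g) ∈ A
    rw [COR_mk, ← hxg]
    exact hx
  · show mkX Γ ((γ : SL(2, ℝ)) * g * h) ∈ B
    rw [mul_assoc, COR_mk, ← hyg]
    exact hy

theorem COR_mono (Γ : Subgroup SL(2, ℝ)) {r r' : ℝ} (h : r ≤ r') (x : XG Γ) : Bx Γ r r x ⊆ Bx Γ r' r' x := by
  rintro y ⟨g, k, ⟨a1, a2, a3, a4⟩, h1, h2⟩
  exact ⟨g, k, ⟨a1.trans h, a2.trans h, a3.trans h, a4.trans h⟩, h1, h2⟩

theorem COR_proof : COR_stmt := by
  intro Γ μ p P ε hΓ hμ hP hε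
  obtain ⟨hcomp, hT2, hsc⟩ := COR_top Γ hΓ
  have hδ : ENNReal.ofReal (ε / (p + 1)) ≠ 0 := by
    rw [Ne, ENNReal.ofReal_eq_zero, not_le]
    positivity
  have hex : ∀ i : Fin p, ∃ F, F ⊆ P ⁻¹' {i} ∧ IsClosed F ∧ μ (P ⁻¹' {i} \ F) < ENNReal.ofReal (ε / (p + 1)) := fun i =>
    (hP (measurableSet_singleton i)).exists_isClosed_sdiff_lt (measure_ne_top μ _) hδ
  choose C hC1 hC2 hC3 using hex
  have hmeas : μ (⋃ i, C i)ᶜ ≤ ENNReal.ofReal ε := by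
    have h1 : (⋃ i, C i)ᶜ ⊆ ⋃ i, (P ⁻¹' {i} \ C i) := by
      intro x hx
      rw [Set.mem_iUnion]
      refine ⟨P x, rfl, fun h => hx (Set.mem_iUnion.2 ⟨P x, h⟩)⟩
    refine (measure_mono h1).trans ((measure_iUnion_fintype_le μ _).trans ?_)
    refine (Finset.sum_le_sum fun i _ => (hC3 i).le).trans ?_
    rw [Finset.sum_const, Finset.card_univ, Fintype.card_fin, nsmul_eq_mul,
      ← ENNReal.ofReal_natCast, ← ENNReal.ofReal_mul (by positivity)]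
    refine ENNReal.ofReal_le_ofReal ?_
    rw [← mul_div_assoc, div_le_iff₀ (by positivity)]
    nlinarith
  have hpair : ∀ i j : Fin p, ∀ᶠ r : ℝ in 𝓝[>] 0, i ≠ j → ∀ x y, x ∈ C i → y ∈ C j → y ∉ Bx Γ r r x := by
    intro i j
    by_cases hij : i = j
    · exact Filter.Eventually.of_forall fun r h => absurd hij h
    have hd : Disjoint (C i) (C j) := by
      rw [Set.disjoint_left]
      intro x hx hx'
      have h1 : P x = i := hC1 i hx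
      have h2 : P x = j := hC1 j hx'
      exact hij (h1.symm.trans h2)
    obtain ⟨r₀, hr₀, hr⟩ := COR_pair Γ hΓ (C i) (C j) (hC2 i) (hC2 j) hd
    filter_upwards [Ioc_mem_nhdsGT hr₀] with r hr1 _ x y hx hy hxy
    exact hr x y hx hy (COR_mono Γ hr1.2 x hxy)
  have hall : ∀ᶠ r : ℝ in 𝓝[>] 0, ∀ i j : Fin p, i ≠ j → ∀ x y, x ∈ C i → y ∈ C j → y ∉ Bx Γ r r x :=
    Filter.eventually_all.2 fun i => Filter.eventually_all.2 fun j => hpair i j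
  obtain ⟨r, hr1, hr2⟩ := (hall.and (Ioc_mem_nhdsGT (zero_lt_one (α := ℝ)))).exists
  refine ⟨C, r, hr2.1, hr2.2, hC2, hC1, hmeas, fun i j x y hx hy hxy => ?_⟩
  by_contra hij
  exact hr1 i j hij x y hx hy hxy

end Pool.Agent.LL
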