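import Pool.Agent.helper62.LL.SpecE

set_option autoImplicit false

/-!
# Row ll:LOC of MP_07c750_an: local entropy
-/

open scoped Topology
open MeasureTheory Filter Set

namespace Pool.Agent.LL

theorem LOC_proof (h1 : BTS_stmt) (h2 : LEV_stmt) (h3 : INF_stmt) (h4 : BCT_stmt) : LOC_stmt := by
  intro X mX μ T S p P ε hμ hSys hP hε
  have hm : pastI S P ≤ mX := by
    refine iSup_le fun j => ?_
    have hj : Measurable (fun x => P (S^[j + 1] x)) := hP.comp (hSys.ms.measurable.iterate (j + 1))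
    exact hj.comap_le
  obtain ⟨-, hg, hI⟩ := h3 X (pastI S P) μ p P hμ hm hP
  obtain ⟨L, hL, hint⟩ := hI ε hε
  have hb : ∀ x, 0 ≤ gI L (pastI S P) μ P x ∧ gI L (pastI S P) μ P x ≤ L := fun x =>
    ⟨le_max_left _ _, max_le hL.le (min_le_right _ _)⟩
  obtain ⟨J, hJm, hJT, hJb, hJi, hJl⟩ := h1 X μ T S (gI L (pastI S P) μ P) L hμ hSys (hg L) hb
  refine ⟨J, L, hJm, hJT, hJb, ?_, ?_⟩
  · refine (h2 X μ T S p P hμ hSys hP).trans (EReal.coe_le_coe_iff.2 ?_)
    rw [hJi]
    linarith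
  · filter_upwards [hJl, h4 X μ T S p P (ε / 2) L hμ hSys hP (half_pos hε) hL] with x hx1 hx2
    have hx3 := hx1.eventually_const_lt (show J x - ε / 2 < J x by linarith)
    filter_upwards [hx3, hx2] with n hn1 hn2
    refine hn2.trans (Real.exp_le_exp.2 ?_)
    have hpos : (0 : ℝ) < ((2 * n + 1 : ℕ) : ℝ) := by positivity
    rw [lt_div_iff₀ hpos] at hn1
    nlinarith

end Pool.Agent.LL
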